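import Mathlib
import Pool.Agent.TH497.PW.IntFlow
import Pool.Agent.TH362.FP.Pos
import Pool.Agent.Y335.FL.Main
import Pool.Agent.Y335.FL.Order
import Pool.Agent.Helper335.Rel.Main
import Pool.Agent.V11186.FV.Circ2

set_option autoImplicit false

/-!
# Graphs of circumference at most 49 (MP_c8786f_co)

Every bridgeless multigraph `G` in which all circuits have at most `49` edges has a nowhere-zero
5-flow, and the characteristic polynomial of its bond matroid is positive at all integers `q ≥ 5`.
In the words of the problem: this holds for the bond matroids all of whose cocircuits have at most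
`49` elements.  The degrees, the order and the connectivity are arbitrary.

The relative form: the condition is only required for `G / F`, where `F` is the union of cycles
`C_1, ..., C_m`, each with at most eleven edges outside the union of the earlier ones.

Proof.  The class is closed under contractions.  Let `H` be a counterexample with as few edges as
possible; it has girth at least twelve (library `Y335/FL` of helper335: circuits with at most eleven
edges are contractible) and all degrees are at least three.  Among the longest paths
`v_0 v_1 ... v_L` of `H` take one for which `v_0` has a neighbour `v_b` with `b` as large as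
possible.  For a chord `v_0 v_t` the sequence `v_{t-1} ... v_0 v_t ... v_L` is again a longest
path (a rotation), so that all neighbours of `v_{t-1}` are among `v_0, ..., v_b`; the same holds
after several rotations.
(1) With one rotation for each of the chords `v_0 v_a`, `v_0 v_b` and one more rotation of each of
the new paths we find chords `v_{a-1} v_i`, `v_{b-1} v_j`, `v_{j+1} v_k` and `v_u v_l` with
`u = i + 1` or `u = i - 1`.  There is no closed nonbacktracking walk with at most eleven edges;
this gives inequalities for the differences of `0, a, b, i, j, k, l`, which imply `b ≥ 39`.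
(2) For `39 ≤ b ≤ 48` the kernel carries out a complete search for the chords at the ends of the
paths obtained by up to six rotations; two vertices at distance at most ten in the graph of the
known edges are not joined by a further edge.  There is no solution.
So `b ≥ 49`, and the circuit `v_0 v_1 ... v_b` has at least `50` edges.
-/

namespace Pool.Agent.Results.MP_c8786f_co.Circumference

open Pool.Agent.TH497.PW

variable {V E W : Type}

/-- The edges with exactly one end in `X`. -/
def boundary [DecidableEq V] [Fintype E] (src dst : E → V) (X : Finset V) : Finset E :=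
  Finset.univ.filter (fun e => ¬ (src e ∈ X ↔ dst e ∈ X))

/-- Kirchhoff's law. -/
def IsFlow [DecidableEq V] [Fintype E] (src dst : E → V) (f : E → ℤ) : Prop :=
  ∀ v : V, ∑ e ∈ Finset.univ.filter (fun e => src e = v), f e
    = ∑ e ∈ Finset.univ.filter (fun e => dst e = v), f e

/-- `C` is a cycle: the support of an integer flow with the values `0`, `1` and `-1`. -/
def IsCycle [DecidableEq V] [Fintype E] (src dst : E → V) (C : Finset E) : Prop :=
  ∃ z : E → ℤ, IsFlow src dst z ∧ (∀ e, z e = 0 ∨ z e = 1 ∨ z e = -1) ∧ ∀ e, z e ≠ 0 ↔ e ∈ C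

/-- The map `r` identifies only vertices which are joined by a path with edges in `F`; for example
`r` is the identity or the map to the components of the graph `(V, F)`. -/
def JoinedIn (src dst : E → V) (F : Finset E) (r : V → W) : Prop :=
  ∀ x y, r x = r y → (SimpleGraph.fromRel
    (fun u v : V => ∃ e ∈ F, src e = u ∧ dst e = v)).Reachable x y

/-- The set `B` of edges has an even number of ends at every vertex (a loop has two ends). -/
def IsEven [DecidableEq V] (src dst : E → V) (B : Finset E) : Prop :=
  ∀ v, Even ((B.filter (fun e => src e = v)).card + (B.filter (fun e => dst e = v)).card)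

/-- `B` is a circuit of the graph: a minimal nonempty set of edges with an even number of ends at
every vertex. -/
def IsCircuit [DecidableEq V] (src dst : E → V) (B : Finset E) : Prop :=
  B.Nonempty ∧ IsEven src dst B ∧ ∀ D ⊆ B, D.Nonempty → IsEven src dst D → D = B

/-- The number of the components of the graph with the vertices `V` and the edges `A`. -/
noncomputable def components (src dst : E → V) (A : Finset E) : ℕ :=
  Nat.card (SimpleGraph.fromRel
    (fun u v : V => ∃ e ∈ A, src e = u ∧ dst e = v)).ConnectedComponent

/-- The rank of `A` in the cycle matroid of the graph. -/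
noncomputable def cycleRank [Fintype V] (src dst : E → V) (A : Finset E) : ℕ :=
  Fintype.card V - components src dst A

/-- The rank of `A` in the bond matroid of the graph (the dual of the cycle matroid). -/
noncomputable def bondRank [Fintype V] [Fintype E] [DecidableEq E] (src dst : E → V)
    (A : Finset E) : ℕ :=
  A.card + cycleRank src dst Aᶜ - cycleRank src dst Finset.univ

/-- The characteristic polynomial of the bond matroid at the integer `x`. -/
noncomputable def bondCharPoly [Fintype V] [Fintype E] [DecidableEq E] (src dst : E → V)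
    (x : ℤ) : ℤ :=
  ∑ A : Finset E, (-1) ^ A.card * x ^ (bondRank src dst Finset.univ - bondRank src dst A)

theorem isFlow_iff [DecidableEq V] [Fintype E] (src dst : E → V) (f : E → ℤ) :
    IsFlow src dst f ↔
      ∀ v, ∑ e, f e * ((if src e = v then 1 else 0) - (if dst e = v then 1 else 0)) = 0 := by
  unfold IsFlow
  refine forall_congr' fun v => ?_
  rw [Finset.sum_filter, Finset.sum_filter, ← sub_eq_zero, ← Finset.sum_sub_distrib]
  have : ∀ e, (if src e = v then f e else 0) - (if dst e = v then f e else 0)
      = f e * ((if src e = v then 1 else 0) - (if dst e = v then 1 else 0)) := by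
    intro e
    by_cases h1 : src e = v <;> by_cases h2 : dst e = v <;> simp [h1, h2]
  rw [Finset.sum_congr rfl (fun e _ => this e)]

theorem nzf [Fintype V] [DecidableEq V] [Fintype E] [DecidableEq E] (src dst : E → V)
    (h : Pool.Agent.TH676.Z.FlowOn src dst ∅ ∅) : NZF src dst := by
  obtain ⟨f, h1, _, h3⟩ := h
  refine ⟨f, fun e => h3 e (Finset.notMem_empty _) (Finset.notMem_empty _), fun x => ?_⟩
  rw [← h1 x]
  unfold Pool.Agent.TH676.Z.bd
  refine Finset.sum_congr rfl fun e _ => ?_
  unfold ic
  by_cases h4 : src e = x <;> by_cases h5 : dst e = x <;> simp [h4, h5]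

theorem charPoly_pos [Fintype V] [DecidableEq V] [Fintype E] [DecidableEq E] (src dst : E → V)
    (f : E → ℤ) (h1 : IsFlow src dst f) (h2 : ∀ e, 1 ≤ |f e| ∧ |f e| ≤ 4) (q : ℕ) (hq : 5 ≤ q) :
    0 < bondCharPoly src dst q :=
  Pool.Agent.TH362.FP.chr_pos src dst f h2 h1 q hq

/-- the reduction modulo five of a flow with values in `{0, 1, -1}` -/
theorem mod5 [Fintype V] [DecidableEq V] [Fintype E] [DecidableEq E] (src dst : E → V)
    (C : Finset E) (h : IsCycle src dst C) :
    ∃ z : E → ZMod 5, (∀ v, Pool.Agent.TH676.Z.bd src dst z v = 0) ∧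
      (∀ e, z e = 0 ∨ z e = 1 ∨ z e = -1) ∧ ∀ e, z e ≠ 0 ↔ e ∈ C := by
  obtain ⟨z, h1, h2, h3⟩ := h
  refine ⟨fun e => ((z e : ℤ) : ZMod 5), fun v => ?_, fun e => ?_, fun e => ?_⟩
  · have h4 := h1 v
    rw [Finset.sum_filter, Finset.sum_filter, ← sub_eq_zero, ← Finset.sum_sub_distrib] at h4
    have h5 := congrArg (fun t : ℤ => (t : ZMod 5)) h4
    simp only [Int.cast_sum, Int.cast_sub, Int.cast_zero] at h5
    refine Eq.trans ?_ h5
    unfold Pool.Agent.TH676.Z.bd
    rw [Finset.sum_sub_distrib, Finset.sum_sub_distrib]
    congr 1 <;>
    · refine Finset.sum_congr rfl fun e _ => ?_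
      split_ifs <;> simp
  · rcases h2 e with h | h | h <;> simp [h]
  · rw [← h3 e]
    have h10 : (1 : ZMod 5) ≠ 0 := by decide
    rcases h2 e with h | h | h <;> simp [h, h10]

theorem finish [Fintype V] [DecidableEq V] [Fintype E] [DecidableEq E] (src dst : E → V)
    (h : Pool.Agent.TH676.Z.FlowOn src dst ∅ ∅) :
    (∃ f : E → ℤ, IsFlow src dst f ∧ ∀ e, 1 ≤ |f e| ∧ |f e| ≤ 4) ∧
      ∀ q : ℕ, 5 ≤ q → 0 < bondCharPoly src dst q := by
  obtain ⟨F, hF, hF0⟩ := int_flow src dst (nzf src dst h)
  have hF1 := (isFlow_iff src dst F).mpr hF0
  exact ⟨⟨F, hF1, hF⟩, fun q hq => charPoly_pos src dst F hF1 hF q hq⟩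

theorem result :
    ∀ (V E W : Type) [Fintype V] [DecidableEq V] [Fintype E] [DecidableEq E] [Fintype W]
      [DecidableEq W] (src dst : E → V) (m : ℕ) (C : Fin m → Finset E),
      (∀ i, IsCycle src dst (C i)) →
      (∀ i, (C i \ (Finset.univ.filter (fun j => j < i)).biUnion C).card ≤ 11) →
      ∀ ρ : V → W, JoinedIn src dst (Finset.univ.biUnion C) ρ →
      (∀ B : Finset E, IsCircuit (ρ ∘ src) (ρ ∘ dst) B → B.card ≤ 49) →
      (∀ Y : Finset V, (boundary src dst Y).card ≠ 1) →
      (∃ f : E → ℤ, IsFlow src dst f ∧ ∀ e, 1 ≤ |f e| ∧ |f e| ≤ 4) ∧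
      ∀ q : ℕ, 5 ≤ q → 0 < bondCharPoly src dst q := by
  intro V E W _ _ _ _ _ _ src dst m C hC hnew ρ hρ hT hb
  refine finish src dst (Pool.Agent.Helper335.Rel.relative src dst m C
    (fun i => mod5 src dst (C i) (hC i)) hnew ρ hρ ?_)
  exact Pool.Agent.V11186.FV.flow_of_ClC Pool.Agent.Y335.FL.contract_all _ _
    (Pool.Agent.V11186.FV.circ_iff fun B h1 h2 h3 => hT B ⟨h1, h2, h3⟩)
    (fun Y _ => by
      rw [Finset.sdiff_empty]
      exact Pool.Agent.Helper335.Rel.br_quot src dst ρ hb Y)

/-- The case without cycles: circumference at most 49. -/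
theorem circumference (V E : Type) [Fintype V] [DecidableEq V] [Fintype E] [DecidableEq E]
    (src dst : E → V) (h : ∀ B : Finset E, IsCircuit src dst B → B.card ≤ 49)
    (hb : ∀ Y : Finset V, (boundary src dst Y).card ≠ 1) :
    ∃ f : E → ℤ, IsFlow src dst f ∧ ∀ e, 1 ≤ |f e| ∧ |f e| ≤ 4 := by
  refine (result V E V src dst 0 (fun i => i.elim0) (fun i => i.elim0) (fun i => i.elim0) id
    (fun x y h => ?_) h hb).1
  rw [show x = y from h]

end Pool.Agent.Results.MP_c8786f_co.Circumference
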