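import Mathlib
import Pool.Agent.TH497.PW.IntFlow
import Pool.Agent.TH362.FP.Pos
import Pool.Agent.Y335.FL.Main
import Pool.Agent.Y335.FL.Order
import Pool.Agent.Helper335.Rel.Main
import Pool.Agent.V11186.FV.Near

set_option autoImplicit false

/-!
# Graphs covered by few balls (MP_c8786f_co)

Let `G` be a bridgeless multigraph in which all vertices of degree at least three are covered by `k`
balls of radius `r` (that is, each of them is joined to one of `k` vertices by a path with at most
`r` edges), where `(k, r)` is `(12, 2)`, `(4, 3)`, `(2, 4)` or `(1, 5)`.  Then `G` has a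
nowhere-zero 5-flow, and the characteristic polynomial of its bond matroid is positive at all
integers `q ≥ 5`.  The degrees, the order and the connectivity are arbitrary.  For example this
holds for all bridgeless graphs of radius at most five.

The relative form: the condition is only required for `G / F`, where `F` is the union of cycles
`C_1, ..., C_m`, each with at most eleven edges outside the union of the earlier ones.

Proof.  The class is closed under contractions.  Let `H` be a counterexample with as few edges as
possible; it has girth at least twelve (library `Y335/FL` of helper335: circuits with at most eleven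
edges are contractible), all degrees are at least three and there are at least 126 vertices.
Consider a forest of shortest paths to the centres.  As the girth is at least twelve, all edges
between vertices of the same tree are forest edges, and two edges joining the same two trees have
ends whose distances in the two trees have sum at least ten.
`r = 2`: any two trees are joined by at most one edge, so that
`3 n / 2 ≤ (n - k) + k (k - 1) / 2`, which is impossible for `k ≤ 12`.
`r = 3`, `k = 4`: vertices at tree distance at most three are joined to different trees.  Let `x` be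
a vertex at distance three from its centre, `w` its parent and `a` the parent of `w`.  Two sons of
`w` at distance three would be joined to four other trees; so `w` is joined to a third tree, and
so is a further son of `a`, or `a`; but there are only three other trees.  Hence all distances are
at most two.
`r = 4`, `k = 2`: a vertex of maximal distance would be joined to two other trees.
`r = 5`, `k = 1`: `H` would be a tree.
-/

namespace Pool.Agent.Results.MP_c8786f_co.FewBalls

open Pool.Agent.TH497.PW

variable {V E W : Type}

/-- The edges with exactly one end in `X`. -/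
def boundary [DecidableEq V] [Fintype E] (src dst : E → V) (X : Finset V) : Finset E :=
  Finset.univ.filter (fun e => ¬ (src e ∈ X ↔ dst e ∈ X))

/-- Kirchhoff's law. -/
def IsFlow [DecidableEq V] [Fintype E] (src dst : E → V) (f : E → ℤ) : Prop :=
  ∀ v : V, ∑ e ∈ Finset.univ.filter (fun e => src e = v), f e
    = ∑ e ∈ Finset.univ.filter (fun e => dst e = v), f e

/-- `C` is a cycle: the support of an integer flow with the values `0`, `1` and `-1`. -/
def IsCycle [DecidableEq V] [Fintype E] (src dst : E → V) (C : Finset E) : Prop :=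
  ∃ z : E → ℤ, IsFlow src dst z ∧ (∀ e, z e = 0 ∨ z e = 1 ∨ z e = -1) ∧ ∀ e, z e ≠ 0 ↔ e ∈ C

/-- The map `r` identifies only vertices which are joined by a path with edges in `F`; for example
`r` is the identity or the map to the components of the graph `(V, F)`. -/
def JoinedIn (src dst : E → V) (F : Finset E) (r : V → W) : Prop :=
  ∀ x y, r x = r y → (SimpleGraph.fromRel
    (fun u v : V => ∃ e ∈ F, src e = u ∧ dst e = v)).Reachable x y

/-- The degree of `v`; loops are not counted. -/
def properDegree [DecidableEq V] [Fintype E] (src dst : E → V) (v : V) : ℕ :=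
  (Finset.univ.filter (fun e => src e ≠ dst e ∧ (src e = v ∨ dst e = v))).card

/-- There is a walk with at most `r` edges from `x` to `s` (the sequence `w 0, ..., w r` may
stay at a vertex). -/
def Within (src dst : E → V) (r : ℕ) (x s : V) : Prop :=
  ∃ w : ℕ → V, w 0 = x ∧ w r = s ∧ ∀ i < r, w i = w (i + 1) ∨
    ∃ e, (src e = w i ∧ dst e = w (i + 1)) ∨ (src e = w (i + 1) ∧ dst e = w i)

/-- The number of the components of the graph with the vertices `V` and the edges `A`. -/
noncomputable def components (src dst : E → V) (A : Finset E) : ℕ :=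
  Nat.card (SimpleGraph.fromRel
    (fun u v : V => ∃ e ∈ A, src e = u ∧ dst e = v)).ConnectedComponent

/-- The rank of `A` in the cycle matroid of the graph. -/
noncomputable def cycleRank [Fintype V] (src dst : E → V) (A : Finset E) : ℕ :=
  Fintype.card V - components src dst A

/-- The rank of `A` in the bond matroid of the graph (the dual of the cycle matroid). -/
noncomputable def bondRank [Fintype V] [Fintype E] [DecidableEq E] (src dst : E → V)
    (A : Finset E) : ℕ :=
  A.card + cycleRank src dst Aᶜ - cycleRank src dst Finset.univ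

/-- The characteristic polynomial of the bond matroid at the integer `x`. -/
noncomputable def bondCharPoly [Fintype V] [Fintype E] [DecidableEq E] (src dst : E → V)
    (x : ℤ) : ℤ :=
  ∑ A : Finset E, (-1) ^ A.card * x ^ (bondRank src dst Finset.univ - bondRank src dst A)

theorem isFlow_iff [DecidableEq V] [Fintype E] (src dst : E → V) (f : E → ℤ) :
    IsFlow src dst f ↔
      ∀ v, ∑ e, f e * ((if src e = v then 1 else 0) - (if dst e = v then 1 else 0)) = 0 := by
  unfold IsFlow
  refine forall_congr' fun v => ?_
  rw [Finset.sum_filter, Finset.sum_filter, ← sub_eq_zero, ← Finset.sum_sub_distrib]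
  have : ∀ e, (if src e = v then f e else 0) - (if dst e = v then f e else 0)
      = f e * ((if src e = v then 1 else 0) - (if dst e = v then 1 else 0)) := by
    intro e
    by_cases h1 : src e = v <;> by_cases h2 : dst e = v <;> simp [h1, h2]
  rw [Finset.sum_congr rfl (fun e _ => this e)]

theorem nzf [Fintype V] [DecidableEq V] [Fintype E] [DecidableEq E] (src dst : E → V)
    (h : Pool.Agent.TH676.Z.FlowOn src dst ∅ ∅) : NZF src dst := by
  obtain ⟨f, h1, _, h3⟩ := h
  refine ⟨f, fun e => h3 e (Finset.notMem_empty _) (Finset.notMem_empty _), fun x => ?_⟩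
  rw [← h1 x]
  unfold Pool.Agent.TH676.Z.bd
  refine Finset.sum_congr rfl fun e _ => ?_
  unfold ic
  by_cases h4 : src e = x <;> by_cases h5 : dst e = x <;> simp [h4, h5]

theorem charPoly_pos [Fintype V] [DecidableEq V] [Fintype E] [DecidableEq E] (src dst : E → V)
    (f : E → ℤ) (h1 : IsFlow src dst f) (h2 : ∀ e, 1 ≤ |f e| ∧ |f e| ≤ 4) (q : ℕ) (hq : 5 ≤ q) :
    0 < bondCharPoly src dst q :=
  Pool.Agent.TH362.FP.chr_pos src dst f h2 h1 q hq

/-- the reduction modulo five of a flow with values in `{0, 1, -1}` -/
theorem mod5 [Fintype V] [DecidableEq V] [Fintype E] [DecidableEq E] (src dst : E → V)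
    (C : Finset E) (h : IsCycle src dst C) :
    ∃ z : E → ZMod 5, (∀ v, Pool.Agent.TH676.Z.bd src dst z v = 0) ∧
      (∀ e, z e = 0 ∨ z e = 1 ∨ z e = -1) ∧ ∀ e, z e ≠ 0 ↔ e ∈ C := by
  obtain ⟨z, h1, h2, h3⟩ := h
  refine ⟨fun e => ((z e : ℤ) : ZMod 5), fun v => ?_, fun e => ?_, fun e => ?_⟩
  · have h4 := h1 v
    rw [Finset.sum_filter, Finset.sum_filter, ← sub_eq_zero, ← Finset.sum_sub_distrib] at h4
    have h5 := congrArg (fun t : ℤ => (t : ZMod 5)) h4
    simp only [Int.cast_sum, Int.cast_sub, Int.cast_zero] at h5
    refine Eq.trans ?_ h5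
    unfold Pool.Agent.TH676.Z.bd
    rw [Finset.sum_sub_distrib, Finset.sum_sub_distrib]
    congr 1 <;>
    · refine Finset.sum_congr rfl fun e _ => ?_
      split_ifs <;> simp
  · rcases h2 e with h | h | h <;> simp [h]
  · rw [← h3 e]
    have h10 : (1 : ZMod 5) ≠ 0 := by decide
    rcases h2 e with h | h | h <;> simp [h, h10]

theorem finish [Fintype V] [DecidableEq V] [Fintype E] [DecidableEq E] (src dst : E → V)
    (h : Pool.Agent.TH676.Z.FlowOn src dst ∅ ∅) :
    (∃ f : E → ℤ, IsFlow src dst f ∧ ∀ e, 1 ≤ |f e| ∧ |f e| ≤ 4) ∧
      ∀ q : ℕ, 5 ≤ q → 0 < bondCharPoly src dst q := by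
  obtain ⟨F, hF, hF0⟩ := int_flow src dst (nzf src dst h)
  have hF1 := (isFlow_iff src dst F).mpr hF0
  exact ⟨⟨F, hF1, hF⟩, fun q hq => charPoly_pos src dst F hF1 hF q hq⟩

theorem result :
    ∀ (V E W : Type) [Fintype V] [DecidableEq V] [Fintype E] [DecidableEq E] [Fintype W]
      [DecidableEq W] (src dst : E → V) (m : ℕ) (C : Fin m → Finset E),
      (∀ i, IsCycle src dst (C i)) →
      (∀ i, (C i \ (Finset.univ.filter (fun j => j < i)).biUnion C).card ≤ 11) →
      ∀ ρ : V → W, JoinedIn src dst (Finset.univ.biUnion C) ρ →
      ∀ (k r : ℕ), (k = 12 ∧ r = 2 ∨ k = 4 ∧ r = 3 ∨ k = 2 ∧ r = 4 ∨ k = 1 ∧ r = 5) →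
      ∀ S : Finset W, S.card ≤ k →
      (∀ x : W, 3 ≤ properDegree (ρ ∘ src) (ρ ∘ dst) x →
        ∃ s ∈ S, Within (ρ ∘ src) (ρ ∘ dst) r x s) →
      (∀ Y : Finset V, (boundary src dst Y).card ≠ 1) →
      (∃ f : E → ℤ, IsFlow src dst f ∧ ∀ e, 1 ≤ |f e| ∧ |f e| ≤ 4) ∧
      ∀ q : ℕ, 5 ≤ q → 0 < bondCharPoly src dst q := by
  intro V E W _ _ _ _ _ _ src dst m C hC hnew ρ hρ k r hk S hS hx hb
  refine finish src dst (Pool.Agent.Helper335.Rel.relative src dst m C
    (fun i => mod5 src dst (C i) (hC i)) hnew ρ hρ ?_)
  refine Pool.Agent.V11186.FV.flow_of_ClB Pool.Agent.Y335.FL.contract_all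
    Pool.Agent.Y335.FL.moore k r (by omega) _ _ ⟨S, hS, hx⟩ (fun Y _ => by
      rw [Finset.sdiff_empty]
      exact Pool.Agent.Helper335.Rel.br_quot src dst ρ hb Y)

/-- The case without cycles and `k = 1`: radius at most five. -/
theorem radius_five (V E : Type) [Fintype V] [DecidableEq V] [Fintype E] [DecidableEq E]
    (src dst : E → V) (c : V) (hc : ∀ x, 3 ≤ properDegree src dst x → Within src dst 5 x c)
    (hb : ∀ Y : Finset V, (boundary src dst Y).card ≠ 1) :
    ∃ f : E → ℤ, IsFlow src dst f ∧ ∀ e, 1 ≤ |f e| ∧ |f e| ≤ 4 := by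
  refine (result V E V src dst 0 (fun i => i.elim0) (fun i => i.elim0) (fun i => i.elim0) id
    (fun x y h => ?_) 1 5 (by omega) {c} (by simp)
    (fun x hx => ⟨c, by simp, hc x hx⟩) hb).1
  rw [show x = y from h]

end Pool.Agent.Results.MP_c8786f_co.FewBalls
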