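import Mathlib
import Pool.Agent.TH497.PW.IntFlow
import Pool.Agent.TH362.FP.Pos
import Pool.Agent.Y335.FL.Main
import Pool.Agent.Y335.FL.Order
import Pool.Agent.Helper335.Rel.Main
import Pool.Agent.V11186.FV.Scat

set_option autoImplicit false

/-!
# Graphs without many vertices which are far from each other (MP_c8786f_co)

Let `(k, r)` be `(18, 2)`, `(13, 3)`, `(4, 4)` or `(3, 5)`.  Let `G` be a bridgeless multigraph such
that among any `k` vertices of degree at least three there are two at distance at most `r`.  Then
`G` has a nowhere-zero 5-flow, and the characteristic polynomial of its bond matroid is positive at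
all integers `q ≥ 5`.  The degrees, the order and the connectivity are arbitrary.  For `r = 2` the
condition says that there are no `18` disjoint closed neighbourhoods of such vertices (the
2-packing number is at most `17`).

The relative form: the condition is only required for `G / F`, where `F` is the union of cycles
`C_1, ..., C_m`, each with at most eleven edges outside the union of the earlier ones.

Proof.  The class is closed under contractions.  Let `H` be a counterexample with as few edges as
possible; it has girth at least twelve (library `Y335/FL` of helper335: circuits with at most eleven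
edges are contractible) and all degrees are at least three.  So a binary tree with `62` vertices
(the vertices at distance at most four from an edge) has a locally injective map to `H`.
Nonbacktracking walks with at most eleven edges are paths, and two paths with the same ends have
together at least twelve edges.  So if the distance of two vertices of the tree is between `r + 1`
and `11 - r`, then the distance of their images in `H` is at least `r + 1`.  The tree contains `k`
vertices such that all mutual distances are in this range: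
`r = 2`: one leaf of each of the `16` pairs of siblings, and two vertices of level one;
`r = 3`: one of each of `12` pairs of siblings at distance four from a vertex `v`, and `v`;
`r = 4`: four vertices at distance three from an edge;
`r = 5`: three vertices at distance three from a vertex, in different branches.
-/

namespace Pool.Agent.Results.MP_c8786f_co.ScatteredSets

open Pool.Agent.TH497.PW

variable {V E W : Type}

/-- The edges with exactly one end in `X`. -/
def boundary [DecidableEq V] [Fintype E] (src dst : E → V) (X : Finset V) : Finset E :=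
  Finset.univ.filter (fun e => ¬ (src e ∈ X ↔ dst e ∈ X))

/-- Kirchhoff's law. -/
def IsFlow [DecidableEq V] [Fintype E] (src dst : E → V) (f : E → ℤ) : Prop :=
  ∀ v : V, ∑ e ∈ Finset.univ.filter (fun e => src e = v), f e
    = ∑ e ∈ Finset.univ.filter (fun e => dst e = v), f e

/-- `C` is a cycle: the support of an integer flow with the values `0`, `1` and `-1`. -/
def IsCycle [DecidableEq V] [Fintype E] (src dst : E → V) (C : Finset E) : Prop :=
  ∃ z : E → ℤ, IsFlow src dst z ∧ (∀ e, z e = 0 ∨ z e = 1 ∨ z e = -1) ∧ ∀ e, z e ≠ 0 ↔ e ∈ C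

/-- The map `r` identifies only vertices which are joined by a path with edges in `F`; for example
`r` is the identity or the map to the components of the graph `(V, F)`. -/
def JoinedIn (src dst : E → V) (F : Finset E) (r : V → W) : Prop :=
  ∀ x y, r x = r y → (SimpleGraph.fromRel
    (fun u v : V => ∃ e ∈ F, src e = u ∧ dst e = v)).Reachable x y

/-- The degree of `v`; loops are not counted. -/
def properDegree [DecidableEq V] [Fintype E] (src dst : E → V) (v : V) : ℕ :=
  (Finset.univ.filter (fun e => src e ≠ dst e ∧ (src e = v ∨ dst e = v))).card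

/-- There is a walk with at most `r` edges from `x` to `s` (the sequence `w 0, ..., w r` may
stay at a vertex). -/
def Within (src dst : E → V) (r : ℕ) (x s : V) : Prop :=
  ∃ w : ℕ → V, w 0 = x ∧ w r = s ∧ ∀ i < r, w i = w (i + 1) ∨
    ∃ e, (src e = w i ∧ dst e = w (i + 1)) ∨ (src e = w (i + 1) ∧ dst e = w i)

/-- The number of the components of the graph with the vertices `V` and the edges `A`. -/
noncomputable def components (src dst : E → V) (A : Finset E) : ℕ :=
  Nat.card (SimpleGraph.fromRel
    (fun u v : V => ∃ e ∈ A, src e = u ∧ dst e = v)).ConnectedComponent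

/-- The rank of `A` in the cycle matroid of the graph. -/
noncomputable def cycleRank [Fintype V] (src dst : E → V) (A : Finset E) : ℕ :=
  Fintype.card V - components src dst A

/-- The rank of `A` in the bond matroid of the graph (the dual of the cycle matroid). -/
noncomputable def bondRank [Fintype V] [Fintype E] [DecidableEq E] (src dst : E → V)
    (A : Finset E) : ℕ :=
  A.card + cycleRank src dst Aᶜ - cycleRank src dst Finset.univ

/-- The characteristic polynomial of the bond matroid at the integer `x`. -/
noncomputable def bondCharPoly [Fintype V] [Fintype E] [DecidableEq E] (src dst : E → V)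
    (x : ℤ) : ℤ :=
  ∑ A : Finset E, (-1) ^ A.card * x ^ (bondRank src dst Finset.univ - bondRank src dst A)

theorem isFlow_iff [DecidableEq V] [Fintype E] (src dst : E → V) (f : E → ℤ) :
    IsFlow src dst f ↔
      ∀ v, ∑ e, f e * ((if src e = v then 1 else 0) - (if dst e = v then 1 else 0)) = 0 := by
  unfold IsFlow
  refine forall_congr' fun v => ?_
  rw [Finset.sum_filter, Finset.sum_filter, ← sub_eq_zero, ← Finset.sum_sub_distrib]
  have : ∀ e, (if src e = v then f e else 0) - (if dst e = v then f e else 0)
      = f e * ((if src e = v then 1 else 0) - (if dst e = v then 1 else 0)) := by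
    intro e
    by_cases h1 : src e = v <;> by_cases h2 : dst e = v <;> simp [h1, h2]
  rw [Finset.sum_congr rfl (fun e _ => this e)]

theorem nzf [Fintype V] [DecidableEq V] [Fintype E] [DecidableEq E] (src dst : E → V)
    (h : Pool.Agent.TH676.Z.FlowOn src dst ∅ ∅) : NZF src dst := by
  obtain ⟨f, h1, _, h3⟩ := h
  refine ⟨f, fun e => h3 e (Finset.notMem_empty _) (Finset.notMem_empty _), fun x => ?_⟩
  rw [← h1 x]
  unfold Pool.Agent.TH676.Z.bd
  refine Finset.sum_congr rfl fun e _ => ?_
  unfold ic
  by_cases h4 : src e = x <;> by_cases h5 : dst e = x <;> simp [h4, h5]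

theorem charPoly_pos [Fintype V] [DecidableEq V] [Fintype E] [DecidableEq E] (src dst : E → V)
    (f : E → ℤ) (h1 : IsFlow src dst f) (h2 : ∀ e, 1 ≤ |f e| ∧ |f e| ≤ 4) (q : ℕ) (hq : 5 ≤ q) :
    0 < bondCharPoly src dst q :=
  Pool.Agent.TH362.FP.chr_pos src dst f h2 h1 q hq

/-- the reduction modulo five of a flow with values in `{0, 1, -1}` -/
theorem mod5 [Fintype V] [DecidableEq V] [Fintype E] [DecidableEq E] (src dst : E → V)
    (C : Finset E) (h : IsCycle src dst C) :
    ∃ z : E → ZMod 5, (∀ v, Pool.Agent.TH676.Z.bd src dst z v = 0) ∧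
      (∀ e, z e = 0 ∨ z e = 1 ∨ z e = -1) ∧ ∀ e, z e ≠ 0 ↔ e ∈ C := by
  obtain ⟨z, h1, h2, h3⟩ := h
  refine ⟨fun e => ((z e : ℤ) : ZMod 5), fun v => ?_, fun e => ?_, fun e => ?_⟩
  · have h4 := h1 v
    rw [Finset.sum_filter, Finset.sum_filter, ← sub_eq_zero, ← Finset.sum_sub_distrib] at h4
    have h5 := congrArg (fun t : ℤ => (t : ZMod 5)) h4
    simp only [Int.cast_sum, Int.cast_sub, Int.cast_zero] at h5
    refine Eq.trans ?_ h5
    unfold Pool.Agent.TH676.Z.bd
    rw [Finset.sum_sub_distrib, Finset.sum_sub_distrib]
    congr 1 <;>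
    · refine Finset.sum_congr rfl fun e _ => ?_
      split_ifs <;> simp
  · rcases h2 e with h | h | h <;> simp [h]
  · rw [← h3 e]
    have h10 : (1 : ZMod 5) ≠ 0 := by decide
    rcases h2 e with h | h | h <;> simp [h, h10]

theorem finish [Fintype V] [DecidableEq V] [Fintype E] [DecidableEq E] (src dst : E → V)
    (h : Pool.Agent.TH676.Z.FlowOn src dst ∅ ∅) :
    (∃ f : E → ℤ, IsFlow src dst f ∧ ∀ e, 1 ≤ |f e| ∧ |f e| ≤ 4) ∧
      ∀ q : ℕ, 5 ≤ q → 0 < bondCharPoly src dst q := by
  obtain ⟨F, hF, hF0⟩ := int_flow src dst (nzf src dst h)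
  have hF1 := (isFlow_iff src dst F).mpr hF0
  exact ⟨⟨F, hF1, hF⟩, fun q hq => charPoly_pos src dst F hF1 hF q hq⟩

theorem result :
    ∀ (V E W : Type) [Fintype V] [DecidableEq V] [Fintype E] [DecidableEq E] [Fintype W]
      [DecidableEq W] (src dst : E → V) (m : ℕ) (C : Fin m → Finset E),
      (∀ i, IsCycle src dst (C i)) →
      (∀ i, (C i \ (Finset.univ.filter (fun j => j < i)).biUnion C).card ≤ 11) →
      ∀ ρ : V → W, JoinedIn src dst (Finset.univ.biUnion C) ρ →
      ∀ (k r : ℕ), (k = 18 ∧ r = 2 ∨ k = 13 ∧ r = 3 ∨ k = 4 ∧ r = 4 ∨ k = 3 ∧ r = 5) →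
      (∀ T : Finset W, T.card = k → (∀ x ∈ T, 3 ≤ properDegree (ρ ∘ src) (ρ ∘ dst) x) →
        ∃ x ∈ T, ∃ y ∈ T, x ≠ y ∧ Within (ρ ∘ src) (ρ ∘ dst) r x y) →
      (∀ Y : Finset V, (boundary src dst Y).card ≠ 1) →
      (∃ f : E → ℤ, IsFlow src dst f ∧ ∀ e, 1 ≤ |f e| ∧ |f e| ≤ 4) ∧
      ∀ q : ℕ, 5 ≤ q → 0 < bondCharPoly src dst q := by
  intro V E W _ _ _ _ _ _ src dst m C hC hnew ρ hρ k r hk hx hb
  refine finish src dst (Pool.Agent.Helper335.Rel.relative src dst m C
    (fun i => mod5 src dst (C i) (hC i)) hnew ρ hρ ?_)
  refine Pool.Agent.V11186.FV.flow_of_ClP Pool.Agent.Y335.FL.contract_all k r (by omega) _ _ ?_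
    (fun Y _ => by
      rw [Finset.sdiff_empty]
      exact Pool.Agent.Helper335.Rel.br_quot src dst ρ hb Y)
  rintro ⟨T, h1, h2, h3⟩
  obtain ⟨x, hx1, y, hy1, hxy, hw⟩ := hx T h1 h2
  exact h3 x hx1 y hy1 hxy hw

/-- The case without cycles and `r = 2`: at most 17 pairwise disjoint closed neighbourhoods. -/
theorem packing (V E : Type) [Fintype V] [DecidableEq V] [Fintype E] [DecidableEq E]
    (src dst : E → V)
    (h : ∀ T : Finset V, T.card = 18 → ∃ x ∈ T, ∃ y ∈ T, x ≠ y ∧ Within src dst 2 x y)
    (hb : ∀ Y : Finset V, (boundary src dst Y).card ≠ 1) :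
    ∃ f : E → ℤ, IsFlow src dst f ∧ ∀ e, 1 ≤ |f e| ∧ |f e| ≤ 4 := by
  refine (result V E V src dst 0 (fun i => i.elim0) (fun i => i.elim0) (fun i => i.elim0) id
    (fun x y h => ?_) 18 2 (by omega) (fun T hT _ => h T hT) hb).1
  rw [show x = y from h]

end Pool.Agent.Results.MP_c8786f_co.ScatteredSets
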